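import Mathlib

set_option autoImplicit false

namespace Pool.Agent.H9Pav

open Finset

variable {α : Type*} [DecidableEq α]

/-- If two distinct members of `H` contain the `(n-1)`-set `T`, then every `n`-set containing `T`
is in `H`. -/
def Clos (E : Finset α) (n : ℕ) (H : Finset (Finset α)) : Prop :=
  ∀ T ⊆ E, T.card + 1 = n → ∀ a ∈ E, ∀ b ∈ E, a ∉ T → b ∉ T → a ≠ b → insert a T ∈ H →
    insert b T ∈ H → ∀ c ∈ E, c ∉ T → insert c T ∈ H

/-- every `n`-set containing `e` is in `H`. -/
def LoopAt (E : Finset α) (n : ℕ) (H : Finset (Finset α)) (e : α) : Prop :=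
  ∀ G ⊆ E, G.card = n → e ∈ G → G ∈ H

lemma walk {E : Finset α} {n : ℕ} {H : Finset (Finset α)} (hH : H ⊆ E.powersetCard n)
    (hP : Clos E n H) {e : α} (he : e ∈ E) (hl : LoopAt E n H e) :
    ∀ (k : ℕ) (F G : Finset α), F ∈ H → e ∉ F → G ⊆ E → G.card = n → (G \ F).card = k → G ∈ H := by
  intro k
  induction k with
  | zero =>
    intro F G hF heF hG hGn hk
    have hFE := mem_powersetCard.1 (hH hF)
    have h1 : G ⊆ F := by
      rw [card_eq_zero, sdiff_eq_empty_iff_subset] at hk; exact hk
    have h2 : G = F := eq_of_subset_of_card_le h1 (by rw [hFE.2, hGn])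
    rw [h2]; exact hF
  | succ k ih =>
    intro F G hF heF hG hGn hk
    have hFE := mem_powersetCard.1 (hH hF)
    by_cases heG : e ∈ G
    · exact hl G hG hGn heG
    have hcard : (G \ F).card = (F \ G).card := by
      have h1 := card_sdiff_add_card_inter G F
      have h2 := card_sdiff_add_card_inter F G
      rw [inter_comm] at h2
      omega
    obtain ⟨w, hw⟩ : (G \ F).Nonempty := by rw [← card_pos]; omega
    obtain ⟨z, hz⟩ : (F \ G).Nonempty := by rw [← card_pos]; omega
    rw [mem_sdiff] at hw hz
    have hzT : z ∉ F.erase z := notMem_erase z F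
    have hwT : w ∉ F.erase z := fun h => hw.2 (mem_of_mem_erase h)
    have heT : e ∉ F.erase z := fun h => heF (mem_of_mem_erase h)
    have hTc : (F.erase z).card + 1 = n := by
      rw [card_erase_of_mem hz.1, hFE.2]
      have : 0 < n := by rw [← hFE.2]; exact card_pos.2 ⟨z, hz.1⟩
      omega
    have hTE : F.erase z ⊆ E := (erase_subset z F).trans hFE.1
    have hez : e ≠ z := fun h => heF (h ▸ hz.1)
    have h1 : insert e (F.erase z) ∈ H := by
      apply hl
      · exact insert_subset he hTE
      · rw [card_insert_of_notMem heT]; exact hTc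
      · exact mem_insert_self _ _
    have h2 : insert z (F.erase z) ∈ H := by rw [insert_erase hz.1]; exact hF
    have h3 := hP (F.erase z) hTE hTc e he z (hFE.1 hz.1) heT hzT hez h1 h2 w (hG hw.1) hwT
    apply ih (insert w (F.erase z)) G h3
    · intro h
      rw [mem_insert] at h
      rcases h with h | h
      · exact heG (h ▸ hw.1)
      · exact heT h
    · exact hG
    · exact hGn
    · have : G \ insert w (F.erase z) = (G \ F).erase w := by
        ext x
        simp only [mem_sdiff, mem_insert, mem_erase, not_or, not_and]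
        constructor
        · rintro ⟨hx, hxw, hxF⟩
          refine ⟨hxw, hx, fun hxF' => ?_⟩
          exact hxF (fun h => hz.2 (h ▸ hx)) hxF'
        · rintro ⟨hxw, hx, hxF⟩
          exact ⟨hx, hxw, fun _ => hxF⟩
      rw [this, card_erase_of_mem (mem_sdiff.2 hw), hk]
      omega

/-- no element is a loop of the family. -/
def NoLoop (E : Finset α) (n : ℕ) (H : Finset (Finset α)) : Prop := ∀ e ∈ E, ¬ LoopAt E n H e

/-- link -/
def link (H : Finset (Finset α)) (x : α) : Finset (Finset α) :=
  (H.filter (fun F => x ∈ F)).image (fun F => F.erase x)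

lemma mem_link {H : Finset (Finset α)} {x : α} {G : Finset α} (hx : x ∉ G) :
    G ∈ link H x ↔ insert x G ∈ H := by
  unfold link
  rw [mem_image]
  constructor
  · rintro ⟨F, hF, rfl⟩
    rw [mem_filter] at hF
    rw [insert_erase hF.2]; exact hF.1
  · intro h
    exact ⟨insert x G, mem_filter.2 ⟨h, mem_insert_self _ _⟩, erase_insert hx⟩

lemma card_link (H : Finset (Finset α)) (x : α) :
    (link H x).card = (H.filter (fun F => x ∈ F)).card := by
  unfold link
  apply card_image_of_injOn
  intro F hF G hG h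
  simp only [coe_filter, Set.mem_ofPred_eq] at hF hG
  have h' : F.erase x = G.erase x := h
  rw [← insert_erase hF.2, h', insert_erase hG.2]

lemma link_subset {E : Finset α} {n : ℕ} {H : Finset (Finset α)} (hH : H ⊆ E.powersetCard (n+1))
    (x : α) : link H x ⊆ (E.erase x).powersetCard n := by
  intro G hG
  unfold link at hG
  rw [mem_image] at hG
  obtain ⟨F, hF, rfl⟩ := hG
  rw [mem_filter] at hF
  have := mem_powersetCard.1 (hH hF.1)
  rw [mem_powersetCard]
  exact ⟨erase_subset_erase _ this.1, by rw [card_erase_of_mem hF.2, this.2]; rfl⟩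

lemma clos_link {E : Finset α} {n : ℕ} {H : Finset (Finset α)} (hP : Clos E (n+1) H)
    {x : α} (hx : x ∈ E) : Clos (E.erase x) n (link H x) := by
  intro T hT hTn a ha b hb haT hbT hab h1 h2 c hc hcT
  rw [mem_erase] at ha hb hc
  have hxT : x ∉ T := fun h => (mem_erase.1 (hT h)).1 rfl
  have e1 : x ∉ insert a T := by rw [mem_insert, not_or]; exact ⟨fun h => ha.1 h.symm, hxT⟩
  have e2 : x ∉ insert b T := by rw [mem_insert, not_or]; exact ⟨fun h => hb.1 h.symm, hxT⟩
  have e3 : x ∉ insert c T := by rw [mem_insert, not_or]; exact ⟨fun h => hc.1 h.symm, hxT⟩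
  rw [mem_link e1, insert_comm] at h1
  rw [mem_link e2, insert_comm] at h2
  rw [mem_link e3, insert_comm]
  apply hP (insert x T) _ _ a ha.2 b hb.2 _ _ hab h1 h2 c hc.2
  · rw [mem_insert, not_or]; exact ⟨hc.1, hcT⟩
  · exact insert_subset hx (hT.trans (erase_subset _ _))
  · rw [card_insert_of_notMem hxT, hTn]
  · rw [mem_insert, not_or]; exact ⟨ha.1, haT⟩
  · rw [mem_insert, not_or]; exact ⟨hb.1, hbT⟩

lemma sum_link {E : Finset α} {n : ℕ} {H : Finset (Finset α)} (hH : H ⊆ E.powersetCard n) :
    ∑ x ∈ E, (link H x).card = n * H.card := by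
  simp_rw [card_link]
  simp_rw [card_filter]
  rw [sum_comm]
  have : ∀ F ∈ H, (∑ x ∈ E, if x ∈ F then 1 else 0) = n := by
    intro F hF
    have := mem_powersetCard.1 (hH hF)
    rw [← card_filter, filter_mem_eq_inter, inter_eq_right.2 this.1, this.2]
  rw [sum_congr rfl this]
  simp [mul_comm]

/-- a parallel pair -/
def Par (E : Finset α) (n : ℕ) (H : Finset (Finset α)) (x y : α) : Prop :=
  ∀ G ⊆ E, G.card = n → x ∈ G → y ∈ G → G ∈ H

lemma par_iff {E : Finset α} {n : ℕ} {H : Finset (Finset α)} {x y : α} (hx : x ∈ E)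
    (hxy : y ≠ x) : Par E (n+1) H x y ↔ LoopAt (E.erase x) n (link H x) y := by
  constructor
  · intro h G hG hGn hy
    have hxG : x ∉ G := fun h => (mem_erase.1 (hG h)).1 rfl
    rw [mem_link hxG]
    apply h
    · exact insert_subset hx (hG.trans (erase_subset _ _))
    · rw [card_insert_of_notMem hxG, hGn]
    · exact mem_insert_self _ _
    · exact mem_insert_of_mem hy
  · intro h G hG hGn hx' hy
    have := h (G.erase x) (erase_subset_erase _ hG) (by rw [card_erase_of_mem hx', hGn]; rfl)
      (mem_erase.2 ⟨hxy, hy⟩)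
    rw [mem_link (notMem_erase _ _), insert_erase hx'] at this
    exact this

/-- In a loopless family, a member containing one of a parallel pair contains the other. -/
lemma par_mem {E : Finset α} {n : ℕ} {H : Finset (Finset α)} (hH : H ⊆ E.powersetCard (n+1))
    (hP : Clos E (n+1) H) (hN : NoLoop E (n+1) H) {x y : α} (hx : x ∈ E) (hy : y ∈ E)
    (hxy : y ≠ x) (hpar : Par E (n+1) H x y) {F : Finset α} (hF : F ∈ H) (hxF : x ∈ F) : y ∈ F := by
  by_contra hyF
  apply hN x hx
  intro G hG hGn hxG
  have h1 := (par_iff hx hxy).1 hpar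
  have hmem : G.erase x ∈ link H x := by
    apply walk (link_subset hH x) (clos_link hP hx) (mem_erase.2 ⟨hxy, hy⟩) h1 _ (F.erase x) _ _ _
      (erase_subset_erase _ hG) (by rw [card_erase_of_mem hxG, hGn]; rfl) rfl
    · rw [mem_link (notMem_erase _ _), insert_erase hxF]; exact hF
    · exact fun h => hyF (mem_of_mem_erase h)
  rw [mem_link (notMem_erase _ _), insert_erase hxG] at hmem
  exact hmem

end Pool.Agent.H9Pav
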