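import Mathlib
import Pool.Agent.H9Pav.Family

set_option autoImplicit false

namespace Pool.Agent.H9Pav

open Finset

variable {α : Type*} [DecidableEq α]

def Pk (𝓕 : Finset (Finset α)) : Prop :=
  ∀ (T : Finset α) (a b : α), a ∉ T → b ∉ T → insert a T ∈ 𝓕 → insert b T ∈ 𝓕 → a = b

lemma pack1 {E : Finset α} {n : ℕ} {𝓕 : Finset (Finset α)} (hH : 𝓕 ⊆ E.powersetCard (n+1))
    (hp : Pk 𝓕) : (n+1) * 𝓕.card ≤ E.card.choose n := by
  have hd : ∀ F ∈ 𝓕, ∀ G ∈ 𝓕, F ≠ G → Disjoint (F.powersetCard n) (G.powersetCard n) := by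
    intro F hF G hG hFG
    rw [Finset.disjoint_left]
    intro T hT hT'
    rw [mem_powersetCard] at hT hT'
    have h1 := mem_powersetCard.1 (hH hF)
    have h2 := mem_powersetCard.1 (hH hG)
    obtain ⟨a, ha, rfl⟩ := exists_eq_insert_iff.2 ⟨hT.1, by rw [hT.2, h1.2]⟩
    obtain ⟨b, hb, rfl⟩ := exists_eq_insert_iff.2 ⟨hT'.1, by rw [hT.2, h2.2]⟩
    exact hFG (by rw [hp T a b ha hb hF hG])
  have h1 := card_biUnion (s := 𝓕) (t := fun F => F.powersetCard n) hd
  have h2 : (𝓕.biUnion (fun F => F.powersetCard n)) ⊆ E.powersetCard n := by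
    intro T hT
    rw [mem_biUnion] at hT
    obtain ⟨F, hF, hT⟩ := hT
    rw [mem_powersetCard] at hT ⊢
    exact ⟨hT.1.trans (mem_powersetCard.1 (hH hF)).1, hT.2⟩
  have h3 := card_le_card h2
  rw [h1, card_powersetCard] at h3
  refine le_trans (le_of_eq ?_) h3
  rw [sum_congr rfl (g := fun _ => n + 1)]
  · simp [mul_comm]
  · intro F hF
    rw [card_powersetCard, (mem_powersetCard.1 (hH hF)).2, Nat.choose_succ_self_right]

lemma pack2 {E : Finset α} {n : ℕ} {𝓕 : Finset (Finset α)} (hH : 𝓕 ⊆ E.powersetCard n)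
    (hp : Pk 𝓕) : (E.card - n) * 𝓕.card ≤ E.card.choose (n+1) := by
  have hd : ∀ F ∈ 𝓕, ∀ G ∈ 𝓕, F ≠ G →
      Disjoint ((E \ F).image (fun z => insert z F)) ((E \ G).image (fun z => insert z G)) := by
    intro F hF G hG hFG
    rw [Finset.disjoint_left]
    intro T hT hT'
    rw [mem_image] at hT hT'
    obtain ⟨z, hz, hzT⟩ := hT
    obtain ⟨w, hw, hwT⟩ := hT'
    rw [mem_sdiff] at hz hw
    have heq : insert z F = insert w G := by rw [hzT, hwT]
    have hzw : z ≠ w := by
      rintro rfl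
      apply hFG
      rw [← erase_insert hz.2, heq, erase_insert hw.2]
    have hwF : w ∈ F := by
      have : w ∈ insert z F := by rw [heq]; exact mem_insert_self _ _
      rw [mem_insert] at this
      rcases this with h | h
      · exact absurd h.symm hzw
      · exact h
    have hF' : insert w (F.erase w) ∈ 𝓕 := by rw [insert_erase hwF]; exact hF
    have hG' : insert z (F.erase w) ∈ 𝓕 := by
      have : insert z (F.erase w) = G := by
        rw [← erase_insert hw.2, ← heq, erase_insert_of_ne hzw]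
      rw [this]; exact hG
    exact hzw ((hp (F.erase w) w z (notMem_erase _ _) (fun h => hz.2 (mem_of_mem_erase h))
      hF' hG').symm)
  have h1 := card_biUnion (s := 𝓕) (t := fun F => (E \ F).image (fun z => insert z F)) hd
  have h2 : (𝓕.biUnion (fun F => (E \ F).image (fun z => insert z F))) ⊆
      E.powersetCard (n+1) := by
    intro T hT
    rw [mem_biUnion] at hT
    obtain ⟨F, hF, hT⟩ := hT
    rw [mem_image] at hT
    obtain ⟨z, hz, rfl⟩ := hT
    rw [mem_sdiff] at hz
    have := mem_powersetCard.1 (hH hF)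
    rw [mem_powersetCard]
    exact ⟨insert_subset hz.1 this.1, by rw [card_insert_of_notMem hz.2, this.2]⟩
  have h3 := card_le_card h2
  rw [h1, card_powersetCard] at h3
  refine le_trans (le_of_eq ?_) h3
  rw [sum_congr rfl (g := fun _ => E.card - n)]
  · simp [mul_comm]
  · intro F hF
    have := mem_powersetCard.1 (hH hF)
    rw [card_image_of_injOn, card_sdiff_of_subset this.1, this.2]
    intro a ha b hb hab
    simp only [coe_sdiff, Set.mem_sdiff, mem_coe] at ha hb
    have hab' : insert a F = insert b F := hab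
    have h : a ∈ insert b F := by rw [← hab']; exact mem_insert_self _ _
    rw [mem_insert] at h
    rcases h with h | h
    · exact h
    · exact absurd h ha.2

lemma numA (k s F : ℕ) (hk : 2 ≤ k) (hs : 1 ≤ s) (h1 : (k+1) * F ≤ (k+s+1).choose k)
    (h2 : s * F ≤ (k+s+1).choose (k+2)) : 2 * F ≤ (k+s).choose k := by
  have e1 : (k+s).choose k * (k+s+1) = (k+s+1).choose k * (s+1) := by
    have := Nat.choose_mul_succ_eq (k+s) k
    rw [this]; congr 1; omega
  have e2 : (k+s+1).choose (k+2) * (k+2) = (k+s+1).choose (k+1) * s := by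
    have := Nat.choose_succ_right_eq (k+s+1) (k+1)
    rw [this]; congr 1; omega
  have e3 : (k+s+1) * (k+s).choose k = (k+s+1).choose (k+1) * (k+1) :=
    Nat.add_one_mul_choose_eq (k+s) k
  set X := (k+s).choose k with hX
  by_cases hc : k + s + 1 ≤ k * s
  · have h4 : 2 * (k+s+1) * F ≤ (k+s+1) * X := by
      have a1 : (k+1)*(s+1)*F ≤ (k+s+1)*X := by
        calc (k+1)*(s+1)*F = ((k+1)*F)*(s+1) := by ring
          _ ≤ (k+s+1).choose k * (s+1) := Nat.mul_le_mul_right _ h1
          _ = (k+s+1)*X := by rw [← e1]; ring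
      refine le_trans ?_ a1
      apply Nat.mul_le_mul_right
      nlinarith
    have : (k+s+1) * (2 * F) ≤ (k+s+1) * X := by linarith [h4]
    exact Nat.le_of_mul_le_mul_left this (by omega)
  · have h5 : 2 * (k + s + 1) ≤ (k+1)*(k+2) := by
      push Not at hc
      have hs2 : s ≤ 2 := by
        by_contra hs2
        push Not at hs2
        nlinarith
      nlinarith
    have h4 : s * ((k+s+1) * (2 * F)) ≤ s * ((k+s+1) * X) := by
      calc s * ((k+s+1) * (2 * F)) = (2*(k+s+1)) * (s * F) := by ring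
        _ ≤ ((k+1)*(k+2)) * (s*F) := Nat.mul_le_mul_right _ h5
        _ ≤ ((k+1)*(k+2)) * (k+s+1).choose (k+2) := Nat.mul_le_mul_left _ h2
        _ = (k+1) * ((k+s+1).choose (k+2) * (k+2)) := by ring
        _ = s * ((k+s+1).choose (k+1) * (k+1)) := by rw [e2]; ring
        _ = s * ((k+s+1) * X) := by rw [← e3]
    have h6 := Nat.le_of_mul_le_mul_left h4 (by omega)
    exact Nat.le_of_mul_le_mul_left h6 (by omega)

/-- case of a parallel pair -/
lemma caseA' {E : Finset α} {k r : ℕ} {H : Finset (Finset α)} (hE : E.card = k + 2 + r)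
    (hH : H ⊆ E.powersetCard (k+2)) (hP : Clos E (k+2) H) (hN : NoLoop E (k+2) H)
    {x y : α} (hx : x ∈ E) (hy : y ∈ E) (hxy : y ≠ x) (hpar : Par E (k+2) H x y) :
    ∃ F : ℕ, H.card ≤ (k+r).choose k + F ∧ (k+2) * F ≤ (k+r).choose (k+1) ∧
      (k + r - (k+2)) * F ≤ (k+r).choose (k+3) := by
  have hpar' : Par E (k+2) H y x := fun G hG hGn h1 h2 => hpar G hG hGn h2 h1
  have hmem : ∀ F ∈ H, x ∈ F → y ∈ F := fun F hF h => par_mem hH hP hN hx hy hxy hpar hF h
  have hmem' : ∀ F ∈ H, y ∈ F → x ∈ F := fun F hF h => par_mem hH hP hN hy hx hxy.symm hpar' hF h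
  set E' := (E.erase x).erase y with hE'
  have hE'c : E'.card = k + r := by
    rw [hE', card_erase_of_mem (mem_erase.2 ⟨hxy, hy⟩), card_erase_of_mem hx, hE]
    omega
  have hsplit := card_filter_add_card_filter_not (s := H) (fun F => x ∈ F)
  have hA : (H.filter (fun F => x ∈ F)).card ≤ (k+r).choose k := by
    rw [← hE'c, ← card_powersetCard]
    apply card_le_card_of_injOn (fun F => (F.erase x).erase y)
    · intro F hF
      simp only [coe_filter, Set.mem_ofPred_eq] at hF
      have h1 := mem_powersetCard.1 (hH hF.1)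
      have h2 := hmem F hF.1 hF.2
      simp only [mem_coe, mem_powersetCard]
      refine ⟨erase_subset_erase _ (erase_subset_erase _ h1.1), ?_⟩
      rw [card_erase_of_mem (mem_erase.2 ⟨hxy, h2⟩), card_erase_of_mem hF.2, h1.2]
      omega
    · intro F hF G hG hFG
      simp only [coe_filter, Set.mem_ofPred_eq] at hF hG
      have h2 := hmem F hF.1 hF.2
      have h3 := hmem G hG.1 hG.2
      have hFG' : (F.erase x).erase y = (G.erase x).erase y := hFG
      rw [← insert_erase hF.2, ← insert_erase (mem_erase.2 ⟨hxy, h2⟩), hFG',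
        insert_erase (mem_erase.2 ⟨hxy, h3⟩), insert_erase hG.2]
  set 𝓕 := H.filter (fun F => ¬ x ∈ F) with h𝓕
  have hsub : 𝓕 ⊆ E'.powersetCard (k+2) := by
    intro F hF
    rw [h𝓕, mem_filter] at hF
    have h1 := mem_powersetCard.1 (hH hF.1)
    rw [mem_powersetCard]
    refine ⟨?_, h1.2⟩
    intro a ha
    rw [hE', mem_erase, mem_erase]
    refine ⟨?_, ?_, h1.1 ha⟩
    · rintro rfl; exact hF.2 (hmem' F hF.1 ha)
    · rintro rfl; exact hF.2 ha
  have hpk : Pk 𝓕 := by
    intro T a b ha hb h1 h2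
    by_contra hab
    rw [h𝓕, mem_filter] at h1 h2
    have m1 := mem_powersetCard.1 (hH h1.1)
    have m2 := mem_powersetCard.1 (hH h2.1)
    have hTE : T ⊆ E := (subset_insert a T).trans m1.1
    have hTc : T.card + 1 = k + 2 := by rw [← card_insert_of_notMem ha]; exact m1.2
    have haE : a ∈ E := m1.1 (mem_insert_self _ _)
    have hbE : b ∈ E := m2.1 (mem_insert_self _ _)
    have hxT : x ∉ T := fun h => h1.2 (mem_insert_of_mem h)
    have h3 := hP T hTE hTc a haE b hbE ha hb hab h1.1 h2.1 x hx hxT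
    have h4 := hmem _ h3 (mem_insert_self _ _)
    rw [mem_insert] at h4
    rcases h4 with h4 | h4
    · exact hxy h4
    · exact h1.2 (hmem' _ h1.1 (mem_insert_of_mem h4))
  have p1 := pack1 (n := k+1) hsub hpk
  have p2 := pack2 hsub hpk
  rw [hE'c] at p1 p2
  exact ⟨𝓕.card, by omega, p1, p2⟩

lemma caseA {E : Finset α} {k r : ℕ} {H : Finset (Finset α)} (hE : E.card = k + 3 + r)
    (hr : 3 ≤ r) (hH : H ⊆ E.powersetCard (k+3)) (hP : Clos E (k+3) H) (hN : NoLoop E (k+3) H)
    {x y : α} (hx : x ∈ E) (hy : y ∈ E) (hxy : y ≠ x) (hpar : Par E (k+3) H x y) :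
    2 * H.card ≤ 2 * (k+1+r).choose (k+1) + (k+r).choose (k+2) := by
  obtain ⟨F, hF, p1, p2⟩ := caseA' (k := k+1) (r := r) (by rw [hE]) hH hP hN hx hy hxy hpar
  obtain ⟨s, rfl⟩ : ∃ s, r = s + 2 := ⟨r - 2, by omega⟩
  have hB : 2 * F ≤ (k + (s+2)).choose (k+2) := by
    have := numA (k+2) s F (by omega) (by omega)
      (by rw [show k + 2 + s + 1 = k + 1 + (s+2) by omega]; exact p1)
      (by
        rw [show k + 2 + s + 1 = k + 1 + (s+2) by omega]
        rw [show k + 1 + (s+2) - (k+1+2) = s by omega] at p2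
        exact p2)
    rw [show k + (s+2) = k + 2 + s by omega]
    exact this
  omega

lemma bound2 {E : Finset α} {H : Finset (Finset α)} (hH : H ⊆ E.powersetCard 2)
    (hP : Clos E 2 H) (hN : NoLoop E 2 H) : 2 * H.card ≤ E.card := by
  rw [← sum_link hH]
  calc ∑ x ∈ E, (link H x).card ≤ ∑ x ∈ E, 1 := by
        apply sum_le_sum
        intro x hx
        rw [card_le_one]
        intro A hA B hB
        by_contra hAB
        have hA' := mem_powersetCard.1 (link_subset hH x hA)
        have hB' := mem_powersetCard.1 (link_subset hH x hB)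
        obtain ⟨a, rfl⟩ := card_eq_one.1 hA'.2
        obtain ⟨b, rfl⟩ := card_eq_one.1 hB'.2
        have hab : a ≠ b := fun h => hAB (by rw [h])
        have ha := mem_erase.1 (hA'.1 (mem_singleton_self a))
        have hb := mem_erase.1 (hB'.1 (mem_singleton_self b))
        apply hN x hx
        intro G hG hGn hxG
        have hxl : (G.erase x).card = 1 := by rw [card_erase_of_mem hxG, hGn]
        obtain ⟨c, hc⟩ := card_eq_one.1 hxl
        have hcG : c ∈ G.erase x := by rw [hc]; exact mem_singleton_self c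
        rw [mem_erase] at hcG
        have h1 : insert a {x} ∈ H := by
          rw [Finset.pair_comm]
          exact (mem_link (by rw [mem_singleton]; exact fun h => ha.1 h.symm)).1 hA
        have h2 : insert b {x} ∈ H := by
          rw [Finset.pair_comm]
          exact (mem_link (by rw [mem_singleton]; exact fun h => hb.1 h.symm)).1 hB
        have := hP {x} (singleton_subset_iff.2 hx) (by simp) a ha.2 b hb.2
          (by rw [mem_singleton]; exact ha.1) (by rw [mem_singleton]; exact hb.1) hab h1 h2 c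
          (hG hcG.2) (by rw [mem_singleton]; exact hcG.1)
        rw [← insert_erase hxG, hc, Finset.pair_comm]
        exact this
    _ = E.card := by simp

lemma numB (k r : ℕ) (hr : 1 ≤ r) :
    (k+4+r) * (2 * (k+1+r).choose (k+1) + (k+r).choose (k+2)) ≤
      (k+4) * (2 * (k+2+r).choose (k+2) + (k+1+r).choose (k+3)) := by
  obtain ⟨s, rfl⟩ : ∃ s, r = s + 1 := ⟨r - 1, by omega⟩
  -- X = C(k+1+r, k+1)
  have e1 : (k+2+(s+1)) * (k+1+(s+1)).choose (k+1) = (k+2+(s+1)).choose (k+2) * (k+2) := by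
    have := Nat.add_one_mul_choose_eq (k+1+(s+1)) (k+1)
    rw [show k+2+(s+1) = (k+1+(s+1)).succ by omega]; exact this
  have e2 : (k+(s+1)).choose (k+1) * (k+1+(s+1)) = (k+1+(s+1)).choose (k+1) * (s+1) := by
    have := Nat.choose_mul_succ_eq (k+(s+1)) (k+1)
    rw [show k+1+(s+1) = k+(s+1)+1 by omega, this]; congr 1; omega
  have e3 : (k+(s+1)).choose (k+2) * (k+2) = (k+(s+1)).choose (k+1) * s := by
    have := Nat.choose_succ_right_eq (k+(s+1)) (k+1)
    rw [this]; congr 1; omega
  have e4 : (k+1+(s+1)) * (k+(s+1)).choose (k+2) = (k+1+(s+1)).choose (k+3) * (k+3) := by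
    have := Nat.add_one_mul_choose_eq (k+(s+1)) (k+2)
    rw [show k+1+(s+1) = (k+(s+1)).succ by omega]; exact this
  set X := (k+1+(s+1)).choose (k+1)
  set C1 := (k+2+(s+1)).choose (k+2)
  set Z := (k+(s+1)).choose (k+1)
  set C2 := (k+(s+1)).choose (k+2)
  set C3 := (k+1+(s+1)).choose (k+3)
  have hXpos : 0 ≤ (X:ℚ) := Nat.cast_nonneg _
  have f1 : ((k:ℚ)+2+(s+1)) * X = C1 * (k+2) := by exact_mod_cast e1
  have f2 : (Z:ℚ) * (k+1+(s+1)) = X * (s+1) := by exact_mod_cast e2
  have f3 : (C2:ℚ) * (k+2) = Z * s := by exact_mod_cast e3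
  have f4 : ((k:ℚ)+1+(s+1)) * C2 = C3 * (k+3) := by exact_mod_cast e4
  have hk : (0:ℚ) ≤ k := Nat.cast_nonneg _
  have hs : (0:ℚ) ≤ s := Nat.cast_nonneg _
  have g1 : (C1:ℚ) = ((k:ℚ)+2+(s+1)) * X / (k+2) := by
    rw [eq_div_iff (by positivity)]; exact f1.symm
  have g2 : (Z:ℚ) = X * (s+1) / (k+1+(s+1)) := by
    rw [eq_div_iff (by positivity)]; exact f2
  have g3 : (C2:ℚ) = X * (s+1) * s / ((k+1+(s+1)) * (k+2)) := by
    rw [eq_div_iff (by positivity)]
    have : (C2:ℚ) * ((k+1+(s+1)) * (k+2)) = (C2 * (k+2)) * (k+1+(s+1)) := by ring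
    rw [this, f3]
    have : (Z:ℚ) * s * (k+1+(s+1)) = (Z * (k+1+(s+1))) * s := by ring
    rw [this, f2]
  have g4 : (C3:ℚ) = X * (s+1) * s / ((k+2) * (k+3)) := by
    rw [eq_div_iff (by positivity)]
    have : (C3:ℚ) * ((k+2) * (k+3)) = (C3 * (k+3)) * (k+2) := by ring
    rw [this, ← f4]
    have : ((k:ℚ)+1+(s+1)) * C2 * (k+2) = (C2 * (k+2)) * (k+1+(s+1)) := by ring
    rw [this, f3]
    have : (Z:ℚ) * s * (k+1+(s+1)) = (Z * (k+1+(s+1))) * s := by ring
    rw [this, f2]
  have key : ((k:ℚ)+4+(s+1)) * (2 * X + C2) ≤ (k+4) * (2 * C1 + C3) := by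
    rw [g1, g3, g4]
    have : ((k:ℚ)+4) * (2 * (((k:ℚ)+2+(s+1)) * X / (k+2)) + X * (s+1) * s / ((k+2) * (k+3))) -
       ((k:ℚ)+4+(s+1)) * (2 * X + X * (s+1) * s / ((k+1+(s+1)) * (k+2))) =
       X * ((k+4) * (2 * (k+2+(s+1)) * (k+3) * (k+1+(s+1)) + (s+1)*s*(k+1+(s+1))) -
        (k+4+(s+1)) * (2 * (k+2) * (k+3) * (k+1+(s+1)) + (s+1)*s*(k+3))) /
        ((k+2)*(k+3)*(k+1+(s+1))) := by
      field_simp
    rw [← sub_nonneg, this]
    apply div_nonneg _ (by positivity)
    apply mul_nonneg hXpos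
    have h : ((k:ℚ)+4) * (2 * (k+2+(s+1)) * (k+3) * (k+1+(s+1)) + (s+1)*s*(k+1+(s+1))) -
        (k+4+(s+1)) * (2 * (k+2) * (k+3) * (k+1+(s+1)) + (s+1)*s*(k+3)) =
        24 + 29 * s + 6 * s^2 + s^3 + 20 * k + 22 * k * s + 2 * k * s^2 + 4 * k^2 + 4 * k^2 * s := by
      ring
    rw [h]
    positivity
  exact_mod_cast key

/-- The bound for rank two: `n = k + 2`. -/
theorem boundTwo {α : Type*} [DecidableEq α] : ∀ (k : ℕ) (E : Finset α)
    (H : Finset (Finset α)), E.card = k + 2 + 2 → H ⊆ E.powersetCard (k+2) → Clos E (k+2) H →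
    NoLoop E (k+2) H → 2 * H.card ≤ (k+2) * (k+1) + 2 := by
  intro k
  induction k with
  | zero =>
    intro E H hE hH hP hN
    have := bound2 hH hP hN
    omega
  | succ k ih =>
    intro E H hE hH hP hN
    by_cases hc : ∃ x ∈ E, ∃ y ∈ E, y ≠ x ∧ Par E (k+1+2) H x y
    · obtain ⟨x, hx, y, hy, hxy, hpar⟩ := hc
      obtain ⟨F, hF, p1, p2⟩ := caseA' (k := k+1) (r := 2) hE hH hP hN hx hy hxy hpar
      have h1 : (k+1+2).choose (k+1) * 2 = (k+3) * (k+2) := by
        have : (k+1+2).choose (k+1) = (k+3).choose 2 := Nat.choose_symm_add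
        rw [this, Nat.choose_two_right]
        exact Nat.div_mul_cancel (Nat.even_mul_pred_self (k+3)).two_dvd
      have h2 : (k+1+2).choose (k+1+1) = k + 3 := by
        rw [show k + 1 + 2 = (k+1+1) + 1 by omega, Nat.choose_succ_self_right]
      rw [h2] at p1
      have h3 : F ≤ 1 := by
        by_contra hF1
        push Not at hF1
        nlinarith
      nlinarith
    · push Not at hc
      have h1 : ∀ x ∈ E, 2 * (link H x).card ≤ (k+2) * (k+1) + 2 := by
        intro x hx
        have hxc : (E.erase x).card = k + 2 + 2 := by rw [card_erase_of_mem hx, hE]; omega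
        exact ih (E.erase x) (link H x) hxc (link_subset (n := k+2) hH x)
          (clos_link (n := k+2) hP hx) (by
            intro y hy hl
            rw [mem_erase] at hy
            exact hc x hx y hy.2 hy.1 ((par_iff (n := k+2) hx hy.1).2 hl))
      have h2 := sum_link hH
      have h3 : (k+3) * (2 * H.card) ≤ (k+5) * ((k+2) * (k+1) + 2) := by
        calc (k+3) * (2 * H.card) = ∑ x ∈ E, 2 * (link H x).card := by
              rw [← mul_sum, h2]; ring
          _ ≤ ∑ x ∈ E, ((k+2) * (k+1) + 2) := sum_le_sum h1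
          _ = (k+5) * ((k+2) * (k+1) + 2) := by
              rw [sum_const, hE, smul_eq_mul]
      have h4 : (k+3) * (2 * H.card) ≤ (k+3) * ((k+1+2) * (k+1+1) + 2) := by
        refine h3.trans ?_
        nlinarith
      exact Nat.le_of_mul_le_mul_left h4 (by omega)

/-- The bound on the number of non-bases: `n = k + 3`. -/
theorem bound {α : Type*} [DecidableEq α] {r : ℕ} (hr : 3 ≤ r) : ∀ (k : ℕ) (E : Finset α)
    (H : Finset (Finset α)), E.card = k + 3 + r → H ⊆ E.powersetCard (k+3) → Clos E (k+3) H →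
    NoLoop E (k+3) H → 2 * H.card ≤ 2 * (k+1+r).choose (k+1) + (k+r).choose (k+2) := by
  intro k
  induction k with
  | zero =>
    intro E H hE hH hP hN
    by_cases hc : ∃ x ∈ E, ∃ y ∈ E, y ≠ x ∧ Par E 3 H x y
    · obtain ⟨x, hx, y, hy, hxy, hpar⟩ := hc
      exact caseA hE hr hH hP hN hx hy hxy hpar
    · push Not at hc
      have h1 : ∀ x ∈ E, 2 * (link H x).card ≤ r + 2 := by
        intro x hx
        have hxc : (E.erase x).card = r + 2 := by rw [card_erase_of_mem hx, hE]; omega
        have := bound2 (link_subset (n := 2) hH x) (clos_link (n := 2) hP hx) (by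
          intro y hy hl
          rw [mem_erase] at hy
          exact hc x hx y hy.2 hy.1 ((par_iff (n := 2) hx hy.1).2 hl))
        rw [hxc] at this
        exact this
      have h2 := sum_link hH
      have h3 : 3 * (2 * H.card) ≤ (r+3) * (r+2) := by
        calc 3 * (2 * H.card) = ∑ x ∈ E, 2 * (link H x).card := by
              rw [← mul_sum, h2]; ring
          _ ≤ ∑ x ∈ E, (r+2) := sum_le_sum h1
          _ = (r+3) * (r+2) := by rw [sum_const, hE, smul_eq_mul]; ring
      have h4 : (0+r).choose (0+2) * 2 = r * (r - 1) := by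
        rw [zero_add, zero_add, Nat.choose_two_right]
        exact Nat.div_mul_cancel (Nat.even_mul_pred_self r).two_dvd
      have h5 : (0+1+r).choose (0+1) = r + 1 := by
        rw [zero_add, Nat.choose_one_right]; omega
      rw [h5]
      obtain ⟨s, rfl⟩ : ∃ s, r = s + 3 := ⟨r - 3, by omega⟩
      rw [show s + 3 - 1 = s + 2 by omega] at h4
      nlinarith
  | succ k ih =>
    intro E H hE hH hP hN
    by_cases hc : ∃ x ∈ E, ∃ y ∈ E, y ≠ x ∧ Par E (k+1+3) H x y
    · obtain ⟨x, hx, y, hy, hxy, hpar⟩ := hc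
      exact caseA hE hr hH hP hN hx hy hxy hpar
    · push Not at hc
      have h1 : ∀ x ∈ E, 2 * (link H x).card ≤ 2 * (k+1+r).choose (k+1) + (k+r).choose (k+2) := by
        intro x hx
        have hxc : (E.erase x).card = k + 3 + r := by rw [card_erase_of_mem hx, hE]; omega
        exact ih (E.erase x) (link H x) hxc (link_subset (n := k+3) hH x)
          (clos_link (n := k+3) hP hx) (by
            intro y hy hl
            rw [mem_erase] at hy
            exact hc x hx y hy.2 hy.1 ((par_iff (n := k+3) hx hy.1).2 hl))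
      have h2 := sum_link hH
      have h3 : (k+4) * (2 * H.card) ≤
          (k+4+r) * (2 * (k+1+r).choose (k+1) + (k+r).choose (k+2)) := by
        calc (k+4) * (2 * H.card) = ∑ x ∈ E, 2 * (link H x).card := by
              rw [← mul_sum, h2]; ring
          _ ≤ ∑ x ∈ E, (2 * (k+1+r).choose (k+1) + (k+r).choose (k+2)) := sum_le_sum h1
          _ = (k+4+r) * (2 * (k+1+r).choose (k+1) + (k+r).choose (k+2)) := by
              rw [sum_const, hE, smul_eq_mul]
      have h4 := h3.trans (numB k r (by omega))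
      have h5 := Nat.le_of_mul_le_mul_left h4 (by omega)
      rw [show k + 1 + 1 + r = k + 2 + r by omega]
      exact h5

end Pool.Agent.H9Pav
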