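import Mathlib

set_option autoImplicit false

namespace Pool.Agent.H9Pav

open Finset Complex ComplexConjugate

lemma conj_pow_mul {u : ℂ} (hu : ‖u‖ = 1) {j m : ℕ} (hj : j ≤ m) :
    u ^ j * conj (u ^ m) = conj (u ^ (m - j)) := by
  have h1 : u * conj u = 1 := by
    rw [Complex.mul_conj, Complex.normSq_eq_norm_sq, hu]; simp
  obtain ⟨d, rfl⟩ := Nat.exists_eq_add_of_le hj
  rw [show j + d - j = d by omega, pow_add, map_mul, map_pow, ← mul_assoc, ← mul_pow, h1, one_pow,
    one_mul]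

/-- Fejér kernel -/
lemma fejer (u : ℂ) (hu : ‖u‖ = 1) (l : ℕ) :
    ((l:ℝ)+1) + 2 * ∑ j ∈ range l, ((l - j : ℕ) : ℝ) * (u^(j+1)).re =
      Complex.normSq (∑ j ∈ range (l+1), u^j) := by
  induction l with
  | zero => simp
  | succ l ih =>
    rw [sum_range_succ (fun j => u ^ j) (l+1), Complex.normSq_add, ← ih]
    have h1 : Complex.normSq (u ^ (l+1)) = 1 := by
      rw [Complex.normSq_eq_norm_sq, norm_pow, hu]; simp
    have h2 : ((∑ j ∈ range (l+1), u ^ j) * conj (u ^ (l+1))).re =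
        ∑ j ∈ range (l+1), (u ^ (j+1)).re := by
      rw [sum_mul, Complex.re_sum]
      rw [← sum_range_reflect]
      apply sum_congr rfl
      intro j hj
      rw [mem_range] at hj
      rw [conj_pow_mul hu (by omega), Complex.conj_re]
      congr 2
      omega
    rw [h1, h2]
    have h3 : ∑ j ∈ range (l+1), ((l + 1 - j : ℕ) : ℝ) * (u^(j+1)).re =
        ∑ j ∈ range l, ((l - j : ℕ) : ℝ) * (u^(j+1)).re + ∑ j ∈ range (l+1), (u ^ (j+1)).re := by
      have : ∑ j ∈ range l, ((l - j : ℕ) : ℝ) * (u^(j+1)).re =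
          ∑ j ∈ range (l+1), ((l - j : ℕ) : ℝ) * (u^(j+1)).re := by
        rw [sum_range_succ]; simp
      rw [this, ← sum_add_distrib]
      apply sum_congr rfl
      intro j hj
      rw [mem_range] at hj
      have : ((l + 1 - j : ℕ) : ℝ) = ((l - j : ℕ) : ℝ) + 1 := by
        have : l + 1 - j = (l - j) + 1 := by omega
        rw [this]; push_cast; ring
      rw [this]; ring
    rw [h3]
    push_cast
    ring

/-- Convex sequences have nonnegative cosine sums. -/
lemma convex_nonneg (u : ℂ) (hu : ‖u‖ = 1) : ∀ (R : ℕ) (c : ℕ → ℝ),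
    (∀ k, 0 ≤ c k - 2 * c (k+1) + c (k+2)) → (∀ k, R < k → c k = 0) →
    0 ≤ c 0 + 2 * ∑ k ∈ range R, c (k+1) * (u^(k+1)).re := by
  intro R
  induction R with
  | zero =>
    intro c hc h0
    have h1 := hc 0
    rw [h0 (0+1) (by omega), h0 (0+2) (by omega)] at h1
    simpa using h1
  | succ R ih =>
    intro c hc h0
    set t := c (R+1) with ht
    have ht0 : 0 ≤ t := by
      have h1 := hc (R+1)
      rw [h0 (R+1+1) (by omega), h0 (R+1+2) (by omega)] at h1
      simpa using h1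
    have h1 := ih (fun k => c k - t * ((R + 2 - k : ℕ) : ℝ)) (by
      intro k
      show 0 ≤ (c k - t * ((R + 2 - k : ℕ) : ℝ)) - 2 * (c (k+1) - t * ((R + 2 - (k+1) : ℕ) : ℝ)) +
        (c (k+2) - t * ((R + 2 - (k+2) : ℕ) : ℝ))
      rcases lt_trichotomy k (R+1) with hk | hk | hk
      · have e1 : ((R + 2 - k : ℕ) : ℝ) = (R:ℝ) + 2 - k := by
          rw [Nat.cast_sub (by omega)]; push_cast; ring
        have e2 : ((R + 2 - (k+1) : ℕ) : ℝ) = (R:ℝ) + 2 - (k+1) := by
          rw [Nat.cast_sub (by omega)]; push_cast; ring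
        have e3 : ((R + 2 - (k+2) : ℕ) : ℝ) = (R:ℝ) + 2 - (k+2) := by
          rw [Nat.cast_sub (by omega)]; push_cast; ring
        rw [e1, e2, e3]
        have := hc k
        nlinarith
      · subst hk
        rw [h0 (R+1+1) (by omega), h0 (R+1+2) (by omega), show R + 2 - (R+1) = 1 by omega,
          show R + 2 - (R+1+1) = 0 by omega, show R + 2 - (R+1+2) = 0 by omega]
        simp [← ht]
      · rw [h0 k (by omega), h0 (k+1) (by omega), h0 (k+2) (by omega),
          show R + 2 - k = 0 by omega, show R + 2 - (k+1) = 0 by omega,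
          show R + 2 - (k+2) = 0 by omega]
        simp) (by
      intro k hk
      show c k - t * ((R + 2 - k : ℕ) : ℝ) = 0
      rcases Nat.lt_or_ge (R+1) k with hk' | hk'
      · rw [h0 k hk', show R + 2 - k = 0 by omega]; simp
      · have : k = R + 1 := by omega
        subst this
        rw [show R + 2 - (R+1) = 1 by omega]; simp [← ht])
    have h2 := fejer u hu (R+1)
    have h3 : 0 ≤ Complex.normSq (∑ j ∈ range (R+1+1), u^j) := Complex.normSq_nonneg _
    rw [← h2] at h3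
    have h4 := mul_nonneg ht0 h3
    have h5 : c 0 + 2 * ∑ k ∈ range (R+1), c (k+1) * (u^(k+1)).re =
      ((c 0 - t * ((R + 2 - 0 : ℕ) : ℝ)) +
        2 * ∑ k ∈ range R, (c (k+1) - t * ((R + 2 - (k+1) : ℕ) : ℝ)) * (u^(k+1)).re) +
      t * ((((R+1:ℕ):ℝ)+1) + 2 * ∑ j ∈ range (R+1), ((R + 1 - j : ℕ) : ℝ) * (u^(j+1)).re) := by
      have e1 : ∑ k ∈ range R, (c (k+1) - t * ((R + 2 - (k+1) : ℕ) : ℝ)) * (u^(k+1)).re =
          ∑ k ∈ range (R+1), (c (k+1) - t * ((R + 2 - (k+1) : ℕ) : ℝ)) * (u^(k+1)).re := by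
        rw [sum_range_succ]
        rw [show R + 2 - (R+1) = 1 by omega]
        simp [← ht]
      rw [e1]
      have e2 : ∀ k, R + 2 - (k+1) = R + 1 - k := by intro k; omega
      simp_rw [e2, sub_mul, sum_sub_distrib, mul_assoc, ← mul_sum]
      simp only [Nat.sub_zero]
      push_cast
      ring
    rw [h5]
    exact add_nonneg h1 h4

/-- Strict positivity in the open disk. -/
lemma convex_pos (w : ℂ) (hw0 : w ≠ 0) (hw : ‖w‖ < 1) (R : ℕ) (c : ℕ → ℝ)
    (hc : ∀ k, 0 ≤ c k - 2 * c (k+1) + c (k+2)) (h0 : ∀ k, R < k → c k = 0)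
    (hmono : ∀ k, c (k+2) ≤ c (k+1)) (hnn : ∀ k, 0 ≤ c (k+1)) (h1 : 0 < c 1) :
    0 < c 0 + 2 * ∑ k ∈ range R, c (k+1) * (w^(k+1)).re := by
  set ρ := ‖w‖ with hρ
  have hρ0 : 0 < ρ := norm_pos_iff.2 hw0
  set u : ℂ := w / ρ with hu
  have hun : ‖u‖ = 1 := by
    rw [hu, norm_div, Complex.norm_real, Real.norm_eq_abs, abs_of_pos hρ0, ← hρ, div_self hρ0.ne']
  have hwu : w = ρ * u := by
    have : (ρ:ℂ) ≠ 0 := by exact_mod_cast hρ0.ne'
    rw [hu, mul_div_cancel₀ _ this]
  have key : ∀ k, 0 ≤ c (k+1) - 2 * ρ * c (k+2) + ρ^2 * c (k+3) := by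
    intro k
    have a1 := hc (k+1)
    have a2 := hmono (k+1)
    have a3 := hnn (k+1)
    have a4 := hnn (k+2)
    have : c (k+1) - 2 * ρ * c (k+2) + ρ^2 * c (k+3) =
      (c (k+1) - 2 * c (k+2) + c (k+3)) + (1 - ρ) * (2 * c (k+2) - (1 + ρ) * c (k+3)) := by ring
    rw [this]
    apply add_nonneg a1
    apply mul_nonneg (by linarith)
    have : (1 + ρ) * c (k+3) ≤ 2 * c (k+2) := by
      calc (1 + ρ) * c (k+3) ≤ 2 * c (k+3) := by
            apply mul_le_mul_of_nonneg_right _ a4; linarith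
        _ ≤ 2 * c (k+2) := by linarith [a2]
    linarith
  have hδ : 0 < c 0 - 2 * ρ * c 1 + ρ^2 * c 2 := by
    have a1 := hc 0
    have a2 := hmono 0
    have a4 := hnn 1
    simp only [zero_add] at a1 a2
    have : c 0 - 2 * ρ * c 1 + ρ^2 * c 2 =
      (c 0 - 2 * c 1 + c 2) + (1 - ρ) * (2 * c 1 - (1 + ρ) * c 2) := by ring
    rw [this]
    apply add_pos_of_nonneg_of_pos a1
    apply mul_pos (by linarith)
    have : (1 + ρ) * c 2 ≤ (1 + ρ) * c 1 := mul_le_mul_of_nonneg_left a2 (by linarith)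
    nlinarith
  have h2 := convex_nonneg u hun R (fun k => if k = 0 then 2 * ρ * c 1 - ρ^2 * c 2 else ρ^k * c k)
    (by
      intro k
      rcases k with _ | k
      · simp only [if_true, zero_add]
        norm_num
        linarith
      · simp only [Nat.add_eq_zero_iff, one_ne_zero, and_false, if_false, OfNat.ofNat_ne_zero]
        have := mul_nonneg (pow_nonneg hρ0.le (k+1)) (key k)
        have e : ρ^(k+1) * c (k+1) - 2 * (ρ^(k+1+1) * c (k+1+1)) + ρ^(k+1+2) * c (k+1+2) =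
          ρ^(k+1) * (c (k+1) - 2 * ρ * c (k+2) + ρ^2 * c (k+3)) := by
          rw [show k + 1 + 1 = k + 2 by omega, show k + 1 + 2 = k + 3 by omega]
          ring
        rw [e]; exact this)
    (by
      intro k hk
      have : k ≠ 0 := by omega
      simp only [this, if_false, h0 k hk, mul_zero])
  have e3 : ∑ k ∈ range R, c (k+1) * (w^(k+1)).re =
      ∑ k ∈ range R, (if k + 1 = 0 then 2 * ρ * c 1 - ρ^2 * c 2 else ρ^(k+1) * c (k+1)) *
        (u^(k+1)).re := by
    apply sum_congr rfl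
    intro k _
    rw [if_neg (by omega), hwu, mul_pow, ← Complex.ofReal_pow, Complex.re_ofReal_mul]
    ring
  rw [e3]
  simp only [if_true] at h2
  linarith

end Pool.Agent.H9Pav
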