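import Mathlib
import Pool.Agent.H9Pav.Fejer

set_option autoImplicit false

namespace Pool.Agent.H9Pav

open Finset Complex

lemma choose_convex (p : ℕ) (hp : 1 ≤ p) (N k : ℕ) :
    (0:ℝ) ≤ ((N - k).choose p : ℝ) - 2 * ((N - (k+1)).choose p : ℝ) + ((N - (k+2)).choose p : ℝ) := by
  obtain ⟨q, rfl⟩ : ∃ q, p = q + 1 := ⟨p - 1, by omega⟩
  rcases Nat.lt_or_ge (N - k) 2 with h | h
  · have e1 : N - (k+1) = 0 := by omega
    have e2 : N - (k+2) = 0 := by omega
    rw [e1, e2, Nat.choose_zero_succ]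
    simp
  · obtain ⟨x, hx⟩ : ∃ x, N - k = x + 2 := ⟨N - k - 2, by omega⟩
    rw [hx, show N - (k+1) = x + 1 by omega, show N - (k+2) = x by omega]
    have a1 : (x+2).choose (q+1) = (x+1).choose q + (x+1).choose (q+1) := Nat.choose_succ_succ' _ _
    have a2 : (x+1).choose (q+1) = x.choose q + x.choose (q+1) := Nat.choose_succ_succ' _ _
    have a3 : x.choose q ≤ (x+1).choose q := Nat.choose_le_choose _ (by omega)
    rw [a1, a2]
    have a3' : (x.choose q : ℝ) ≤ ((x+1).choose q : ℝ) := by exact_mod_cast a3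
    have a2' : ((x+1).choose (q+1) : ℝ) = x.choose q + x.choose (q+1) := by exact_mod_cast a2
    push_cast
    linarith

/-- the polynomial -/
noncomputable def PP (p r : ℕ) (h : ℝ) (z : ℂ) : ℂ :=
  ∑ i ∈ range r, ((p + i).choose p : ℂ) * z ^ i + (h : ℂ) * z ^ r

lemma PP_fejer (p r : ℕ) (hp : 1 ≤ p) (hr : 1 ≤ r) (h : ℝ)
    (hh : 2 * ((p+r-1).choose p : ℝ) - ((p+r-2).choose p : ℝ) ≤ 2 * h) (z : ℂ) (hz : 1 < ‖z‖) :
    PP p r h z ≠ 0 := by
  intro h0
  have hz0 : z ≠ 0 := by rintro rfl; rw [norm_zero] at hz; linarith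
  set w := z⁻¹ with hw
  have hw0 : w ≠ 0 := inv_ne_zero hz0
  have hw1 : ‖w‖ < 1 := by rw [hw, norm_inv]; exact inv_lt_one_of_one_lt₀ hz
  have hzw : z * w = 1 := mul_inv_cancel₀ hz0
  have e1 : PP p r h z * w ^ r =
      (h:ℂ) + ∑ j ∈ range r, ((p + r - (j+1)).choose p : ℂ) * w ^ (j+1) := by
    unfold PP
    rw [add_mul, sum_mul, mul_assoc, ← mul_pow, hzw, one_pow, mul_one, add_comm]
    congr 1
    rw [← sum_range_reflect]
    apply sum_congr rfl
    intro j hj
    rw [mem_range] at hj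
    have : w ^ r = w ^ (r - 1 - j) * w ^ (j+1) := by
      rw [← pow_add]; congr 1; omega
    rw [this, mul_assoc, ← mul_assoc (z ^ (r-1-j)), ← mul_pow, hzw, one_pow, one_mul]
    congr 3
    omega
  rw [h0, zero_mul] at e1
  have hpos := convex_pos w hw0 hw1 r
    (fun k => if k = 0 then 2 * h else ((p + r - k).choose p : ℝ)) (by
      intro k
      rcases k with _ | k
      · simp only [if_true, zero_add]
        norm_num
        linarith
      · simp only [Nat.add_eq_zero_iff, one_ne_zero, and_false, if_false, OfNat.ofNat_ne_zero]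
        exact choose_convex p hp (p+r) (k+1)) (by
      intro k hk
      have : k ≠ 0 := by omega
      simp only [this, if_false]
      rw [Nat.choose_eq_zero_of_lt (by omega)]; simp) (by
      intro k
      simp only [Nat.add_eq_zero_iff, one_ne_zero, and_false, if_false, OfNat.ofNat_ne_zero]
      exact_mod_cast Nat.choose_le_choose _ (by omega)) (by
      intro k
      simp only [Nat.add_eq_zero_iff, one_ne_zero, and_false, if_false]
      positivity) (by
      simp only [one_ne_zero, if_false]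
      exact_mod_cast Nat.choose_pos (by omega))
  have e2 : (((h:ℂ) + ∑ j ∈ range r, ((p + r - (j+1)).choose p : ℂ) * w ^ (j+1))).re =
      h + ∑ j ∈ range r, ((p + r - (j+1)).choose p : ℝ) * (w ^ (j+1)).re := by
    rw [Complex.add_re, Complex.ofReal_re, Complex.re_sum]
    congr 1
    apply sum_congr rfl
    intro j _
    rw [← Complex.ofReal_natCast, Complex.re_ofReal_mul]
  rw [← e1, Complex.zero_re] at e2
  simp only [if_true, Nat.add_eq_zero_iff, one_ne_zero, and_false, if_false] at hpos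
  linarith

lemma PP_zero (p r : ℕ) (hp : 1 ≤ p) (hr : 1 ≤ r) (z : ℂ) (hz : 1 < ‖z‖) :
    PP p r 0 z ≠ 0 := by
  obtain ⟨s, rfl⟩ : ∃ s, r = s + 1 := ⟨r - 1, by omega⟩
  have e : PP p (s+1) 0 z = PP p s ((p+s).choose p : ℝ) z := by
    unfold PP
    rw [sum_range_succ]
    simp
  rw [e]
  rcases Nat.eq_zero_or_pos s with rfl | hs
  · unfold PP; simp
  · apply PP_fejer p s hp hs _ _ z hz
    have h1 : (p+s-1).choose p ≤ (p+s).choose p := Nat.choose_le_choose _ (by omega)
    have h1' : ((p+s-1).choose p : ℝ) ≤ (p+s).choose p := by exact_mod_cast h1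
    have h2 : (0:ℝ) ≤ (p+s-2).choose p := by positivity
    linarith

/-- Special case `p = 1`, `r = 2 q`, `h = q`. -/
lemma PP_special (q : ℕ) (hq : 1 ≤ q) (z : ℂ) (hz : 1 < ‖z‖) :
    PP 1 (2*q) (q:ℝ) z ≠ 0 := by
  have e : ∀ q : ℕ, PP 1 (2*q) (q:ℝ) z = (1+z)^2 * PP 1 q 0 (z^2) := by
    intro q
    induction q with
    | zero => unfold PP; simp
    | succ q ih =>
      unfold PP at ih ⊢
      rw [show 2 * (q+1) = 2*q + 1 + 1 by ring, sum_range_succ, sum_range_succ, sum_range_succ]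
      simp only [Nat.choose_one_right] at ih ⊢
      have : ∑ i ∈ range (2*q), ((1 + i : ℕ) : ℂ) * z ^ i =
          (1+z)^2 * (∑ i ∈ range q, ((1 + i : ℕ) : ℂ) * (z^2) ^ i + ((0:ℝ):ℂ) * (z^2)^q) -
            ((q:ℝ):ℂ) * z^(2*q) := by
        rw [← ih]; ring
      rw [this]
      push_cast
      ring
  rw [e q]
  apply mul_ne_zero
  · apply pow_ne_zero
    intro h
    have : z = -1 := by linear_combination h
    rw [this] at hz
    simp at hz
  · apply PP_zero 1 q le_rfl hq
    rw [norm_pow]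
    nlinarith

/-- `n = 1`. -/
lemma PP_geom (s : ℕ) (hs : 1 ≤ s) (z : ℂ) (hz : 1 < ‖z‖) : ∑ i ∈ range s, z ^ i ≠ 0 := by
  intro h
  have h1 := geom_sum_mul z s
  rw [h, zero_mul] at h1
  have h2 : z ^ s = 1 := by linear_combination -h1
  have h3 : ‖z‖ ^ s = 1 := by rw [← norm_pow, h2, norm_one]
  have h4 : 1 < ‖z‖ ^ s := one_lt_pow₀ hz (by omega)
  linarith

end Pool.Agent.H9Pav
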