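import Mathlib
import Pool.Agent.H9Pav.Bound
import Pool.Agent.H9Pav.Roots

set_option autoImplicit false

namespace Pool.Agent.H9Pav

open Finset Complex

variable {α : Type*} [DecidableEq α]

/-- with a loop, the family is exactly the sets through the loop -/
lemma loop_card {n r : ℕ} (hn : 1 ≤ n) {E : Finset α} (hE : E.card = n + r)
    {H : Finset (Finset α)} (hH : H ⊆ E.powersetCard n) (hP : Clos E n H) {F : Finset α}
    (hF : F ∈ E.powersetCard n) (hFH : F ∉ H) {e : α} (he : e ∈ E) (hl : LoopAt E n H e) :
    H.card = (n+r-1).choose r := by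
  have h1 : H = E.powersetCard n \ (E.erase e).powersetCard n := by
    ext G
    rw [mem_sdiff]
    constructor
    · intro hG
      refine ⟨hH hG, fun hG' => hFH ?_⟩
      have heG : e ∉ G := fun h => (mem_erase.1 ((mem_powersetCard.1 hG').1 h)).1 rfl
      exact walk hH hP he hl _ G F hG heG (mem_powersetCard.1 hF).1 (mem_powersetCard.1 hF).2 rfl
    · rintro ⟨h1, h2⟩
      rw [mem_powersetCard] at h1 h2
      apply hl G h1.1 h1.2
      by_contra h
      apply h2
      refine ⟨fun x hx => mem_erase.2 ⟨?_, h1.1 hx⟩, h1.2⟩
      rintro rfl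
      exact h hx
  rw [h1, card_sdiff_of_subset (powersetCard_mono (erase_subset _ _)), card_powersetCard,
    card_powersetCard, card_erase_of_mem he, hE]
  obtain ⟨p, rfl⟩ : ∃ p, n = p + 1 := ⟨n - 1, by omega⟩
  have e1 : (p + 1 + r).choose (p+1) = (p+r).choose p + (p+r).choose (p+1) := by
    rw [show p + 1 + r = p + r + 1 by omega]; exact Nat.choose_succ_succ' _ _
  have e2 : (p+r).choose p = (p+r).choose r := Nat.choose_symm_add
  rw [e1, show p + 1 + r - 1 = p + r by omega]
  omega

theorem core {n r : ℕ} (hn : 1 ≤ n) (hr : 1 ≤ r) {E : Finset α} (hE : E.card = n + r)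
    {H : Finset (Finset α)} (hH : H ⊆ E.powersetCard n) (hP : Clos E n H) {F : Finset α}
    (hF : F ∈ E.powersetCard n) (hFH : F ∉ H) (z : ℂ) (hz : 1 < ‖z‖) :
    PP (n-1) r (((n+r-1).choose r : ℝ) - H.card) z ≠ 0 := by
  by_cases hN : NoLoop E n H
  · obtain rfl | hn2 : n = 1 ∨ 2 ≤ n := by omega
    · have hH0 : H = ∅ := by
        rw [eq_empty_iff_forall_notMem]
        intro G hG
        have hG' := mem_powersetCard.1 (hH hG)
        obtain ⟨a, rfl⟩ := card_eq_one.1 hG'.2
        apply hN a (hG'.1 (mem_singleton_self a))
        intro G' hG'E hG'1 haG'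
        obtain ⟨b, rfl⟩ := card_eq_one.1 hG'1
        rw [mem_singleton] at haG'
        rw [← haG']; exact hG
      have h1 : PP (1-1) r (((1+r-1).choose r : ℝ) - H.card) z = ∑ i ∈ range (r+1), z ^ i := by
        rw [hH0, show 1 + r - 1 = r by omega, Nat.choose_self]
        unfold PP
        rw [sum_range_succ]
        simp
      rw [h1]
      exact PP_geom (r+1) (by omega) z hz
    · obtain rfl | hn3 : n = 2 ∨ 3 ≤ n := by omega
      · have hb := bound2 hH hP hN
        rw [hE] at hb
        have h1 : (2+r-1).choose r = r + 1 := by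
          rw [show 2 + r - 1 = r + 1 by omega, Nat.choose_succ_self_right]
        rw [h1]
        rcases Nat.lt_or_ge (2 * H.card) (2 + r) with hlt | hge
        · apply PP_fejer (2-1) r (by omega) hr _ _ z hz
          rw [show 2 - 1 + r - 1 = r by omega, show 2 - 1 + r - 2 = r - 1 by omega,
            Nat.choose_one_right, Nat.choose_one_right, Nat.cast_sub hr]
          have : 2 * (H.card : ℝ) + 1 ≤ 2 + r := by exact_mod_cast hlt
          push_cast
          linarith
        · obtain ⟨q, rfl⟩ : ∃ q, r = 2 * q := ⟨H.card - 1, by omega⟩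
          have hHc : H.card = q + 1 := by omega
          rw [hHc]
          have : (((2*q+1 : ℕ):ℝ) - ((q+1:ℕ):ℝ)) = (q:ℝ) := by push_cast; ring
          rw [this]
          exact PP_special q (by omega) z hz
      · obtain ⟨k, rfl⟩ : ∃ k, n = k + 3 := ⟨n - 3, by omega⟩
        obtain rfl | rfl | hr3 : r = 1 ∨ r = 2 ∨ 3 ≤ r := by omega
        · -- r = 1
          have hle : H.card ≤ k + 3 := by
            have h1 : H ⊆ (E.powersetCard (k+3)).erase F := by
              intro G hG
              rw [mem_erase]
              exact ⟨fun h => hFH (h ▸ hG), hH hG⟩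
            have h2 := card_le_card h1
            rw [card_erase_of_mem hF, card_powersetCard, hE, Nat.choose_succ_self_right] at h2
            omega
          intro h0
          unfold PP at h0
          rw [sum_range_one, show k + 3 + 1 - 1 = k + 3 by omega, Nat.choose_one_right] at h0
          simp only [add_zero, pow_zero, mul_one, Nat.choose_self, pow_one] at h0
          obtain ⟨d, hd⟩ := Nat.exists_eq_add_of_le hle
          rw [hd] at h0
          have h1 : (d:ℂ) * z = -1 := by
            push_cast at h0
            linear_combination h0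
          have h2 : (d:ℝ) * ‖z‖ = 1 := by
            have := congrArg norm h1
            rw [norm_mul, Complex.norm_natCast, norm_neg, norm_one] at this
            exact this
          rcases Nat.eq_zero_or_pos d with rfl | hd0
          · simp at h2
          · have : (1:ℝ) ≤ d := by exact_mod_cast hd0
            nlinarith
        · -- r = 2
          have hb := boundTwo (k+1) E H hE hH hP hN
          have h1 : (k+3+2-1).choose 2 * 2 = (k+4)*(k+3) := by
            rw [show k + 3 + 2 - 1 = k + 4 by omega, Nat.choose_two_right]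
            exact Nat.div_mul_cancel (Nat.even_mul_pred_self (k+4)).two_dvd
          set M := (k+3+2-1).choose 2 with hM
          have h2 : k + 2 + H.card ≤ M := by nlinarith
          rcases Nat.lt_or_ge (k+2+H.card) M with hlt | hge
          · apply PP_fejer (k+3-1) 2 (by omega) (by omega) _ _ z hz
            rw [show k + 3 - 1 = k + 2 by omega, show k + 2 + 2 - 1 = (k+2) + 1 by omega,
              show k + 2 + 2 - 2 = k + 2 by omega, Nat.choose_self, Nat.choose_succ_self_right]
            have : (k:ℝ) + 2 + H.card + 1 ≤ M := by exact_mod_cast hlt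
            push_cast
            linarith
          · have h3 : (M:ℝ) - H.card = k + 2 := by
              have : (M:ℝ) = k + 2 + H.card := by exact_mod_cast (le_antisymm hge h2)
              linarith
            rw [h3, show k + 3 - 1 = k + 2 by omega]
            have h4 : PP (k+2) 2 ((k:ℝ)+2) z = (1 + z) * (1 + (k+2) * z) := by
              unfold PP
              rw [sum_range_succ, sum_range_one, Nat.choose_succ_self_right, add_zero,
                Nat.choose_self]
              push_cast
              ring
            rw [h4]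
            apply mul_ne_zero
            · intro h
              have : z = -1 := by linear_combination h
              rw [this] at hz
              simp at hz
            · intro h
              have h5 : ((k+2:ℕ):ℂ) * z = -1 := by push_cast; linear_combination h
              have h6 : ((k+2:ℕ):ℝ) * ‖z‖ = 1 := by
                have := congrArg norm h5
                rw [norm_mul, Complex.norm_natCast, norm_neg, norm_one] at this
                exact this
              push_cast at h6
              have : (0:ℝ) ≤ k := Nat.cast_nonneg _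
              nlinarith
        · have hb := bound hr3 k E H hE hH hP hN
          have h1 : (k+3+r-1).choose r = (k+1+r).choose (k+1) + (k+1+r).choose (k+2) := by
            rw [show k + 3 + r - 1 = (k+2) + r by omega, ← Nat.choose_symm_add,
              show k + 2 + r = (k+1+r) + 1 by omega]
            exact Nat.choose_succ_succ' _ _
          rw [h1]
          apply PP_fejer (k+3-1) r (by omega) hr _ _ z hz
          rw [show k + 3 - 1 + r - 1 = k + 1 + r by omega, show k + 3 - 1 + r - 2 = k + r by omega,
            show k + 3 - 1 = k + 2 by omega]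
          have : 2 * (H.card : ℝ) ≤ 2 * ((k+1+r).choose (k+1) : ℝ) + ((k+r).choose (k+2) : ℝ) := by
            exact_mod_cast hb
          push_cast
          linarith
  · unfold NoLoop at hN
    push Not at hN
    obtain ⟨e, he, hl⟩ := hN
    rw [loop_card hn hE hH hP hF hFH he hl, sub_self]
    obtain rfl | hn2 : n = 1 ∨ 2 ≤ n := by omega
    · have h1 : PP (1-1) r 0 z = ∑ i ∈ range r, z ^ i := by
        unfold PP
        simp
      rw [h1]
      exact PP_geom r hr z hz
    · exact PP_zero (n-1) r (by omega) hr z hz

/-- `∑_{k ≤ r} C(n+r,k) z^k (1-z)^{r-k} = ∑_{i ≤ r} C(n-1+i, n-1) z^i` -/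
lemma hvec (p r : ℕ) (z : ℂ) :
    ∑ k ∈ range (r+1), ((p+1+r).choose k : ℂ) * z ^ k * (1-z) ^ (r-k) =
      ∑ i ∈ range (r+1), ((p+i).choose p : ℂ) * z ^ i := by
  induction r with
  | zero => simp
  | succ r ih =>
    rw [sum_range_succ (fun i => ((p+i).choose p : ℂ) * z ^ i) (r+1), ← ih]
    rw [sum_range_succ' _ (r+1)]
    have e1 : ∀ k ∈ range (r+1), ((p+1+(r+1)).choose (k+1) : ℂ) * z ^ (k+1) * (1-z) ^ (r+1-(k+1)) =
        z * (((p+1+r).choose k : ℂ) * z ^ k * (1-z) ^ (r-k)) +
        ((p+1+r).choose (k+1) : ℂ) * z ^ (k+1) * (1-z) ^ (r+1-(k+1)) := by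
      intro k _
      have : (p+1+(r+1)).choose (k+1) = (p+1+r).choose k + (p+1+r).choose (k+1) :=
        Nat.choose_succ_succ' _ _
      rw [this, show r + 1 - (k+1) = r - k by omega]
      push_cast
      ring
    rw [sum_congr rfl e1, sum_add_distrib, ← mul_sum]
    have e2 : ∑ k ∈ range (r+1), ((p+1+r).choose (k+1) : ℂ) * z ^ (k+1) * (1-z) ^ (r+1-(k+1)) +
        ((p+1+(r+1)).choose 0 : ℂ) * z ^ 0 * (1-z) ^ (r+1-0) =
        (1-z) * ∑ k ∈ range (r+1), ((p+1+r).choose k : ℂ) * z ^ k * (1-z) ^ (r-k) +
          ((p+1+r).choose (r+1) : ℂ) * z ^ (r+1) := by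
      have e3 : ((p+1+(r+1)).choose 0 : ℂ) * z ^ 0 * (1-z) ^ (r+1-0) =
          ((p+1+r).choose 0 : ℂ) * z ^ 0 * (1-z) ^ (r+1-0) := by simp
      rw [e3, ← sum_range_succ' (fun k => ((p+1+r).choose k : ℂ) * z ^ k * (1-z) ^ (r+1-k)),
        sum_range_succ, mul_sum]
      congr 1
      · apply sum_congr rfl
        intro k hk
        rw [mem_range] at hk
        rw [show r + 1 - k = (r - k) + 1 by omega, pow_succ]
        ring
      · simp
    rw [add_assoc, e2]
    have e4 : (p+1+r).choose (r+1) = (p + (r+1)).choose p := by
      rw [show p + 1 + r = p + (r+1) by omega]; exact Nat.choose_symm_add.symm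
    rw [e4]
    ring

end Pool.Agent.H9Pav
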